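import Mathlib

set_option autoImplicit false
open Finsupp

namespace Pool.Agent.H.MP_72f11f_al

abbrev Y := {p : ℕ × ℕ // p.1 ≠ p.2}

def act (σ : ℕ → ℕ) (h : Function.Injective σ) (y : Y) : Y := ⟨(σ y.1.1, σ y.1.2), h.ne y.2⟩

noncomputable def phi (f : MvPolynomial (Fin 2) ℂ) : MvPolynomial Y ℂ →ₐ[ℂ] MvPolynomial ℕ ℂ :=
  MvPolynomial.aeval fun y => MvPolynomial.aeval ![MvPolynomial.X y.1.1, MvPolynomial.X y.1.2] f

open Classical in
noncomputable def cnt {α : Type} (c : α → Prop) : (α →₀ ℕ) →+ ℕ :=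
  liftAddHom fun a => if c a then AddMonoidHom.id ℕ else 0

open Classical in
lemma cnt_single {α : Type} (c : α → Prop) (a : α) (n : ℕ) :
    cnt c (single a n) = if c a then n else 0 := by
  unfold cnt
  rw [liftAddHom_apply_single]
  split_ifs <;> rfl

open Classical in
lemma cnt_apply {α : Type} (c : α → Prop) (u : α →₀ ℕ) :
    cnt c u = ∑ a ∈ u.support, if c a then u a else 0 := by
  unfold cnt
  rw [liftAddHom_apply, Finsupp.sum]
  refine Finset.sum_congr rfl fun a _ => ?_
  split_ifs <;> rfl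

lemma cnt_mono {α : Type} {c c' : α → Prop} {u : α →₀ ℕ} (h : ∀ a, u a ≠ 0 → c a → c' a) :
    cnt c u ≤ cnt c' u := by
  rw [cnt_apply, cnt_apply]
  refine Finset.sum_le_sum fun a ha => ?_
  by_cases hc : c a
  · rw [if_pos hc, if_pos (h a (mem_support_iff.mp ha) hc)]
  · rw [if_neg hc]; exact Nat.zero_le _

lemma cnt_pos {α : Type} {c : α → Prop} {u : α →₀ ℕ} (h : cnt c u ≠ 0) : ∃ a, u a ≠ 0 ∧ c a := by
  rw [cnt_apply] at h
  obtain ⟨a, ha, h⟩ := Finset.exists_ne_zero_of_sum_ne_zero h
  refine ⟨a, mem_support_iff.mp ha, ?_⟩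
  by_contra hc
  exact h (if_neg hc)

lemma cnt_or {α : Type} {c c' : α → Prop} (h : ∀ a, c a → c' a → False) (u : α →₀ ℕ) :
    cnt (fun a => c a ∨ c' a) u = cnt c u + cnt c' u := by
  rw [cnt_apply, cnt_apply, cnt_apply, ← Finset.sum_add_distrib]
  refine Finset.sum_congr rfl fun a _ => ?_
  by_cases h1 : c a <;> by_cases h2 : c' a
  · exact (h a h1 h2).elim
  all_goals simp [h1, h2]

lemma cnt_eq {α : Type} (b : α) (u : α →₀ ℕ) : cnt (fun a => a = b) u = u b := by
  classical
  induction u using Finsupp.induction_linear with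
  | zero => simp
  | add f g hf hg => rw [map_add, hf, hg]; rfl
  | single a n => rw [cnt_single, single_apply]

lemma cnt_true {α : Type} (u : α →₀ ℕ) : cnt (fun _ => True) u = degree u := by
  rw [cnt_apply, degree_apply]; simp

lemma cnt_mapDomain {α β : Type} (g : α → β) (c : β → Prop) (u : α →₀ ℕ) :
    cnt c (mapDomain g u) = cnt (fun a => c (g a)) u := by
  induction u using Finsupp.induction_linear with
  | zero => simp
  | add f g hf hg => rw [mapDomain_add, map_add, map_add, hf, hg]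
  | single a n => rw [mapDomain_single, cnt_single, cnt_single]

lemma md_apply {α β : Type} (g : α → β) (u : α →₀ ℕ) (b : β) :
    mapDomain g u b = cnt (fun a => g a = b) u := by
  rw [← cnt_eq, cnt_mapDomain]

lemma cnt_le {α : Type} (c : α → Prop) {u v : α →₀ ℕ} (h : u ≤ v) : cnt c u ≤ cnt c v := by
  obtain ⟨w, rfl⟩ := exists_add_of_le h
  rw [map_add]; exact Nat.le_add_right _ _

lemma cnt_ge {α : Type} {c : α → Prop} (u : α →₀ ℕ) {a : α} (h : c a) : u a ≤ cnt c u := by
  rw [← cnt_eq]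
  exact cnt_mono fun b _ hb => hb ▸ h

lemma cnt_ge2 {α : Type} {c : α → Prop} (u : α →₀ ℕ) {a b : α} (hab : a ≠ b) (h : c a) (h' : c b) :
    u a + u b ≤ cnt c u := by
  rw [← cnt_eq, ← cnt_eq, ← cnt_or (fun x h1 h2 => hab (h1.symm.trans h2))]
  exact cnt_mono fun x _ hx => by rcases hx with rfl | rfl <;> assumption

lemma extract {α : Type} {u : α →₀ ℕ} {a : α} (h : u a ≠ 0) : ∃ w, u = single a 1 + w :=
  exists_add_of_le (single_le_iff.mpr (Nat.one_le_iff_ne_zero.mpr h))

lemma eq_of_le_degree {α : Type} {a b : α →₀ ℕ} (h : a ≤ b) (hd : degree a = degree b) : a = b := by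
  obtain ⟨c, rfl⟩ := exists_add_of_le h
  rw [map_add] at hd
  have : degree c = 0 := by omega
  rw [(degree_eq_zero_iff c).mp this, add_zero]

noncomputable def out : (Y →₀ ℕ) →+ (ℕ →₀ ℕ) := mapDomain.addMonoidHom fun y => y.1.1
noncomputable def inn : (Y →₀ ℕ) →+ (ℕ →₀ ℕ) := mapDomain.addMonoidHom fun y => y.1.2
noncomputable def A : (Y →₀ ℕ) →+ (ℕ →₀ ℕ) := out + out + inn

lemma out_apply (u : Y →₀ ℕ) (k : ℕ) : out u k = cnt (fun y => y.1.1 = k) u := md_apply _ _ _
lemma inn_apply (u : Y →₀ ℕ) (k : ℕ) : inn u k = cnt (fun y => y.1.2 = k) u := md_apply _ _ _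
lemma A_apply (u : Y →₀ ℕ) (k : ℕ) : A u k = 2 * out u k + inn u k := by
  simp only [A, AddMonoidHom.add_apply, Finsupp.add_apply]; ring
lemma out_single (y : Y) (n : ℕ) : out (single y n) = single y.1.1 n := mapDomain_single
lemma inn_single (y : Y) (n : ℕ) : inn (single y n) = single y.1.2 n := mapDomain_single
lemma A_single (y : Y) (n : ℕ) :
    A (single y n) = single y.1.1 n + single y.1.1 n + single y.1.2 n := by
  simp only [A, AddMonoidHom.add_apply, out_single, inn_single]
lemma deg_out (u : Y →₀ ℕ) : degree (out u) = degree u := degree_mapDomain _ _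
lemma deg_inn (u : Y →₀ ℕ) : degree (inn u) = degree u := degree_mapDomain _ _
lemma deg_A (u : Y →₀ ℕ) : degree (A u) = 3 * degree u := by
  simp only [A, AddMonoidHom.add_apply, map_add, deg_out, deg_inn]; ring
lemma deg_eq {u v : Y →₀ ℕ} (h : A u = A v) : degree u = degree v := by
  have := deg_A u; have := deg_A v; rw [h] at *; omega

lemma touch_le (u : Y →₀ ℕ) (k : ℕ) : out u k + inn u k ≤ degree u := by
  rw [out_apply, inn_apply, ← cnt_or (fun y h1 h2 => y.2 (h1.trans h2.symm)), ← cnt_true]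
  exact cnt_mono fun _ _ _ => trivial

lemma touch_ex {u : Y →₀ ℕ} {k : ℕ} (h : out u k + inn u k < degree u) :
    ∃ y, u y ≠ 0 ∧ y.1.1 ≠ k ∧ y.1.2 ≠ k := by
  by_contra hc
  push Not at hc
  rw [out_apply, inn_apply, ← cnt_or (fun y h1 h2 => y.2 (h1.trans h2.symm)), ← cnt_true] at h
  refine absurd h (not_lt.mpr (cnt_mono fun y hy _ => ?_))
  by_cases h1 : y.1.1 = k
  · exact Or.inl h1
  · exact Or.inr (hc y hy h1)

noncomputable def ed (i j : ℕ) (h : i ≠ j) : Y →₀ ℕ := single ⟨(i, j), h⟩ 1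

lemma out_ed (i j : ℕ) (h : i ≠ j) : out (ed i j h) = single i 1 := out_single _ _
lemma inn_ed (i j : ℕ) (h : i ≠ j) : inn (ed i j h) = single j 1 := inn_single _ _
lemma A_ed (i j : ℕ) (h : i ≠ j) : A (ed i j h) = single i 1 + single i 1 + single j 1 :=
  A_single _ _
lemma deg_ed (i j : ℕ) (h : i ≠ j) : degree (ed i j h) = 1 := degree_single _ _

lemma ex_out {u : Y →₀ ℕ} {k : ℕ} (h : out u k ≠ 0) : ∃ j hj w, u = ed k j hj + w := by
  rw [out_apply] at h
  obtain ⟨⟨⟨i, j⟩, hij⟩, hy, rfl⟩ := cnt_pos h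
  obtain ⟨w, hw⟩ := extract hy
  exact ⟨j, hij, w, hw⟩

lemma ex_inn {u : Y →₀ ℕ} {k : ℕ} (h : inn u k ≠ 0) : ∃ i hi w, u = ed i k hi + w := by
  rw [inn_apply] at h
  obtain ⟨⟨⟨i, j⟩, hij⟩, hy, rfl⟩ := cnt_pos h
  obtain ⟨w, hw⟩ := extract hy
  exact ⟨i, hij, w, hw⟩

lemma ex_touch {u : Y →₀ ℕ} {k : ℕ} (h : out u k + inn u k < degree u) :
    ∃ s t hst w, s ≠ k ∧ t ≠ k ∧ u = ed s t hst + w := by
  obtain ⟨⟨⟨s, t⟩, hst⟩, hy, h1, h2⟩ := touch_ex h
  obtain ⟨w, hw⟩ := extract hy
  exact ⟨s, t, hst, w, h1, h2, hw⟩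

section conn
variable (R : (Y →₀ ℕ) → (Y →₀ ℕ) → Prop)
  (htrans : ∀ u v w, R u v → R v w → R u w) (hadd : ∀ u v w, R u v → R (u + w) (v + w))
  (hbase : ∀ u v, degree u ≤ 3 → A u = A v → R u v)

include hadd hbase in
lemma step1 {u v : Y →₀ ℕ} (h : A u = A v) {p q : ℕ} (hp : out v p < out u p)
    (hq : out u q < out v q) :
    ∃ u', R u u' ∧ A u' = A u ∧ out u' + single p 1 = out u + single q 1 := by
  have hpq : p ≠ q := by rintro rfl; omega
  have hAq := DFunLike.congr_fun h q
  have hAp := DFunLike.congr_fun h p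
  rw [A_apply, A_apply] at hAq hAp
  have main : ∀ a b w, u = a + w → degree a ≤ 3 → A a = A b →
      out b + single p 1 = out a + single q 1 →
      ∃ u', R u u' ∧ A u' = A u ∧ out u' + single p 1 = out u + single q 1 := by
    rintro a b w rfl h1 h2 h3
    refine ⟨b + w, hadd _ _ _ (hbase _ _ h1 h2), by rw [map_add, map_add, h2], ?_⟩
    rw [map_add, map_add, add_right_comm, h3, add_right_comm]
  obtain ⟨y, hy, u1, h1⟩ := ex_inn (u := u) (k := q) (by omega)
  have : inn u1 q ≠ 0 := by
    have : inn u q = 1 + inn u1 q := by rw [h1, map_add, inn_ed]; simp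
    omega
  obtain ⟨z, hz, u2, h2⟩ := ex_inn this
  by_cases hyp : y = p <;> by_cases hzp : z = p
  · subst hyp; subst hzp
    have h3 := touch_le v z
    have h4 := deg_eq h
    have h5 : out u z = 2 + out u2 z := by
      rw [h1, h2, map_add, map_add, out_ed]; simp; omega
    have h6 : inn u z = inn u2 z := by
      rw [h1, h2, map_add, map_add, inn_ed]; simp [hpq]
    have h7 : degree u = 2 + degree u2 := by
      rw [h1, h2, map_add, map_add, deg_ed]; omega
    obtain ⟨s, t, hst, w, hs, ht, h8⟩ := ex_touch (u := u2) (k := z) (by omega)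
    refine main (ed z q hy + ed z q hy + ed s t hst) (ed z t ht.symm + ed q z hy.symm + ed s z hs)
      w (by rw [h1, h2, h8]; abel) (by simp [deg_ed]) ?_ ?_
    · simp only [map_add, A_ed]; abel
    · simp only [map_add, out_ed]; abel
  · subst hyp
    refine main (ed y q hy + ed z q hz) (ed q y hy.symm + ed z y hzp)
      u2 (by rw [h1, h2]; abel) (by simp [deg_ed]) ?_ ?_
    · simp only [map_add, A_ed]; abel
    · simp only [map_add, out_ed]; abel
  · subst hzp
    refine main (ed y q hy + ed z q hz) (ed q z hz.symm + ed y z hyp)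
      u2 (by rw [h1, h2]; abel) (by simp [deg_ed]) ?_ ?_
    · simp only [map_add, A_ed]; abel
    · simp only [map_add, out_ed]; abel
  · have h5 : out u p = out u2 p := by
      rw [h1, h2, map_add, map_add, out_ed, out_ed]
      simp [Ne.symm hyp, Ne.symm hzp]
    obtain ⟨x, hx, u3, h3⟩ := ex_out (u := u2) (k := p) (by omega)
    by_cases hxq : x = q
    · subst hxq
      refine main (ed p x hx + ed z x hz) (ed x p hx.symm + ed z p hzp)
        (ed y x hy + u3) (by rw [h1, h2, h3]; abel) (by simp [deg_ed]) ?_ ?_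
      · simp only [map_add, A_ed]; abel
      · simp only [map_add, out_ed]; abel
    · refine main (ed p x hx + ed y q hy + ed z q hz) (ed q x (Ne.symm hxq) + ed y p hyp + ed z p hzp)
        u3 (by rw [h1, h2, h3]; abel) (by simp [deg_ed]) ?_ ?_
      · simp only [map_add, A_ed]; abel
      · simp only [map_add, out_ed]; abel

include htrans hadd hbase in
lemma step1' (v : Y →₀ ℕ) (n : ℕ) : ∀ u, degree (out u - out v) = n → A u = A v →
    ∃ u', R u u' ∧ A u' = A v ∧ out u' = out v := by
  induction n using Nat.strong_induction_on with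
  | _ n ih =>
  intro u hn h
  by_cases he : out u = out v
  · refine ⟨u, ?_, h, he⟩
    simpa using hadd 0 0 u (hbase 0 0 (by simp) rfl)
  have hd : degree (out u) = degree (out v) := by rw [deg_out, deg_out, deg_eq h]
  obtain ⟨p, hp⟩ : ∃ p, out v p < out u p := by
    by_contra hc
    push Not at hc
    exact he (eq_of_le_degree hc hd)
  obtain ⟨q, hq⟩ : ∃ q, out u q < out v q := by
    by_contra hc
    push Not at hc
    exact he (eq_of_le_degree hc hd.symm).symm
  obtain ⟨u', h1, h2, h3⟩ := step1 R hadd hbase h hp hq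
  have hpq : p ≠ q := by rintro rfl; omega
  have key : out u' - out v + single p 1 = out u - out v := by
    ext k
    have := DFunLike.congr_fun h3 k
    simp only [Finsupp.add_apply, Finsupp.coe_tsub, Pi.sub_apply, single_apply] at this ⊢
    split_ifs at this ⊢ <;> subst_vars <;> omega
  have : degree (out u' - out v) < n := by
    rw [← hn, ← key, map_add, degree_single]; omega
  obtain ⟨u'', h4, h5, h6⟩ := ih _ this u' rfl (h2.trans h)
  exact ⟨u'', htrans _ _ _ h1 h4, h5, h6⟩

include hadd hbase in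
lemma step2 {u w : Y →₀ ℕ} {i j : ℕ} (hij : i ≠ j) (ho : out u = out (ed i j hij + w))
    (hi : inn u = inn (ed i j hij + w)) :
    ∃ w', R u (ed i j hij + w') ∧ A w' = A w := by
  have hA : A u = A (ed i j hij + w) := by simp only [A, AddMonoidHom.add_apply, ho, hi]
  have main : ∀ a b c, u = a + c → degree a ≤ 3 → A a = A (ed i j hij + b) →
      ∃ w', R u (ed i j hij + w') ∧ A w' = A w := by
    rintro a b c rfl h1 h2
    refine ⟨b + c, by simpa [add_assoc] using hadd _ _ c (hbase _ _ h1 h2), ?_⟩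
    rw [map_add, h2, map_add, map_add, add_assoc] at hA
    rw [map_add]
    exact add_left_cancel hA
  obtain ⟨k, hk, u1, h1⟩ := ex_out (u := u) (k := i) (by rw [ho, map_add, out_ed]; simp)
  by_cases hkj : k = j
  · subst hkj
    exact main (ed i k hk) 0 u1 h1 (by simp [deg_ed]) (by simp)
  have h2 : inn u1 j ≠ 0 := by
    have h3 := DFunLike.congr_fun hi j
    rw [h1, map_add, map_add, inn_ed, inn_ed] at h3
    simp [Ne.symm hkj] at h3
    omega
  obtain ⟨l, hl, u2, h2⟩ := ex_inn h2
  by_cases hlk : l = k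
  · subst hlk
    have h3 := touch_le w l
    have h4 := deg_eq hA
    have h5 := DFunLike.congr_fun ho l
    have h6 := DFunLike.congr_fun hi l
    rw [h1, h2] at h4 h5 h6
    simp only [map_add, out_ed, inn_ed, deg_ed, Finsupp.add_apply, single_apply] at h4 h5 h6
    simp [hk, Ne.symm hl] at h5 h6
    obtain ⟨s, t, hst, c, hs, ht, h8⟩ := ex_touch (u := u2) (k := l) (by omega)
    refine main (ed i l hk + ed l j hl + ed s t hst) (ed l t ht.symm + ed s l hs) c
      (by rw [h1, h2, h8]; abel) (by simp [deg_ed]) ?_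
    simp only [map_add, A_ed]; abel
  · refine main (ed i k hk + ed l j hl) (ed l k hlk) u2 (by rw [h1, h2]; abel)
      (by simp [deg_ed]) ?_
    simp only [map_add, A_ed]; abel

include htrans hadd hbase in
theorem conn (n : ℕ) : ∀ u v, degree v = n → A u = A v → R u v := by
  induction n with
  | zero => intro u v hn h; exact hbase _ _ (by rw [deg_eq h]; omega) h
  | succ n ih =>
    intro u v hn h
    obtain ⟨u', h1, h2, h3⟩ := step1' R htrans hadd hbase v _ u rfl h
    have h4 : inn u' = inn v := by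
      simp only [A, AddMonoidHom.add_apply, h3] at h2
      exact add_left_cancel h2
    obtain ⟨⟨⟨i, j⟩, hij⟩, hy⟩ : ∃ y, v y ≠ 0 := by
      by_contra hc
      push Not at hc
      have : v = 0 := by ext y; exact hc y
      rw [this] at hn; simp at hn
    obtain ⟨w, hw⟩ := extract hy
    change v = ed i j hij + w at hw
    subst hw
    obtain ⟨w', h5, h6⟩ := step2 R hadd hbase hij h3 h4
    have h7 := ih w' w (by rw [map_add, deg_ed] at hn; omega) h6
    have h8 := hadd _ _ (ed i j hij) h7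
    rw [add_comm w', add_comm w] at h8
    exact htrans _ _ _ h1 (htrans _ _ _ h5 h8)

end conn

end Pool.Agent.H.MP_72f11f_al
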