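import Pool.Agent.H.MP_72f11f_al.Basic

set_option autoImplicit false
open Finsupp MvPolynomial

namespace Pool.Agent.H.MP_72f11f_al

noncomputable abbrev f0 : MvPolynomial (Fin 2) ℂ := X 0 ^ 2 * X 1

lemma phi_X (y : Y) : phi f0 (X y) = monomial (A (single y 1)) 1 := by
  unfold phi
  rw [aeval_X, A_single]
  simp only [map_mul, map_pow, aeval_X, Matrix.cons_val_zero, Matrix.cons_val_one]
  rw [sq, X, X, monomial_mul, monomial_mul]; simp

lemma phi_mon (u : Y →₀ ℕ) (c : ℂ) : phi f0 (monomial u c) = monomial (A u) c := by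
  have h1 : ∀ u : Y →₀ ℕ, phi f0 (monomial u 1) = monomial (A u) 1 := by
    intro u
    induction u using Finsupp.induction_linear with
    | zero => simp
    | add f g hf hg =>
      rw [map_add, ← one_mul (1 : ℂ), ← monomial_mul, ← monomial_mul, map_mul, hf, hg]
    | single a n =>
      have : (single a n : Y →₀ ℕ) = n • single a 1 := by simp
      rw [← X_pow_eq_monomial, map_pow, phi_X, monomial_pow, this, map_nsmul, one_pow]
  have h2 : (monomial u c : MvPolynomial Y ℂ) = c • monomial u 1 := by
    rw [smul_monomial]; simp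
  rw [h2, map_smul, h1, smul_monomial]; simp

lemma ker_le (J : Ideal (MvPolynomial Y ℂ))
    (hJ : ∀ u v, A u = A v → (monomial u 1 - monomial v 1 : MvPolynomial Y ℂ) ∈ J) :
    RingHom.ker (phi f0) ≤ J := by
  classical
  let rep : (ℕ →₀ ℕ) → (Y →₀ ℕ) := Function.invFun A
  let ψ : MvPolynomial ℕ ℂ →ₗ[ℂ] MvPolynomial Y ℂ :=
    (basisMonomials ℕ ℂ).constr ℂ fun a => monomial (rep a) 1
  have hψ : ∀ a, ψ (monomial a 1) = monomial (rep a) 1 := fun a => by
    have := (basisMonomials ℕ ℂ).constr_basis ℂ (fun a => (monomial (rep a) 1 : MvPolynomial Y ℂ)) a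
    rwa [coe_basisMonomials] at this
  have key : ∀ g : MvPolynomial Y ℂ, g - ψ (phi f0 g) ∈ J := by
    intro g
    induction g using MvPolynomial.induction_on' with
    | monomial u c =>
      have h2 : (monomial u c : MvPolynomial Y ℂ) = c • monomial u 1 := by
        rw [smul_monomial]; simp
      rw [h2, map_smul, map_smul, phi_mon, hψ, ← smul_sub]
      refine Submodule.smul_of_tower_mem J c (hJ _ _ ?_)
      exact (Function.invFun_eq ⟨u, rfl⟩).symm
    | add p q hp hq =>
      rw [map_add, map_add]
      convert J.add_mem hp hq using 1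
      ring
  intro g hg
  have := key g
  rw [RingHom.mem_ker] at hg
  rwa [hg, map_zero, sub_zero] at this

lemma exists_perm (n : ℕ) (S : Finset ℕ) : S.card ≤ n →
    ∃ σ : Equiv.Perm ℕ, {i | σ i ≠ i}.Finite ∧ ∀ x ∈ S, σ x < n := by
  classical
  induction S using Finset.induction_on with
  | empty => exact fun _ => ⟨1, by simp, by simp⟩
  | insert a S ha ih =>
    intro hc
    rw [Finset.card_insert_of_notMem ha] at hc
    obtain ⟨σ, hσ, hS⟩ := ih (by omega)
    obtain ⟨b, hb, hb'⟩ : ∃ b ∈ Finset.range n, b ∉ S.image σ :=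
      Finset.exists_mem_notMem_of_card_lt_card
        (by rw [Finset.card_range]; exact lt_of_le_of_lt Finset.card_image_le (by omega))
    refine ⟨Equiv.swap (σ a) b * σ, ?_, ?_⟩
    · refine (hσ.union (Set.toFinite {σ a, b})).subset fun i hi => ?_
      by_contra hc
      simp only [Set.mem_union, Set.mem_ofPred_eq, Set.mem_insert_iff, Set.mem_singleton_iff,
        not_or, not_not] at hc
      apply hi
      rw [Equiv.Perm.mul_apply, hc.1, Equiv.swap_apply_of_ne_of_ne hc.2.1 hc.2.2]
    · intro x hx
      rcases Finset.mem_insert.mp hx with rfl | hx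
      · simpa using hb
      · rw [Equiv.Perm.mul_apply, Equiv.swap_apply_of_ne_of_ne]
        · exact hS x hx
        · intro h; exact ha (σ.injective h ▸ hx)
        · intro h; exact hb' (Finset.mem_image.mpr ⟨x, hx, h⟩)

lemma A_act (σ : ℕ → ℕ) (h : Function.Injective σ) (u : Y →₀ ℕ) :
    A (mapDomain (act σ h) u) = mapDomain σ (A u) := by
  induction u using Finsupp.induction_linear with
  | zero => simp
  | add f g hf hg => rw [mapDomain_add, map_add, map_add, mapDomain_add, hf, hg]
  | single a n =>
    rw [mapDomain_single, A_single, A_single, mapDomain_add, mapDomain_add, mapDomain_single,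
      mapDomain_single]
    rfl

lemma act_inj (σ : ℕ → ℕ) (h : Function.Injective σ) : Function.Injective (act σ h) := by
  rintro ⟨⟨a, b⟩, h1⟩ ⟨⟨c, d⟩, h2⟩ he
  simp only [act, Subtype.mk.injEq, Prod.mk.injEq] at he ⊢
  exact ⟨h he.1, h he.2⟩

lemma phi_rename (σ : ℕ → ℕ) (h : Function.Injective σ) (g : MvPolynomial Y ℂ) :
    phi f0 (rename (act σ h) g) = rename σ (phi f0 g) := by
  induction g using MvPolynomial.induction_on' with
  | monomial u c => rw [rename_monomial, phi_mon, phi_mon, rename_monomial, A_act]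
  | add p q hp hq => simp only [map_add, hp, hq]

def Small (u : Y →₀ ℕ) : Prop := degree u ≤ 3 ∧ ∀ k, A u k ≠ 0 → k < 6

lemma small_finite : {u | Small u}.Finite := by
  classical
  have hB : {y : Y | y.1.1 < 6 ∧ y.1.2 < 6}.Finite := by
    refine Set.Finite.of_finite_image (f := Subtype.val) ?_ Subtype.val_injective.injOn
    refine ((Set.finite_lt_nat 6).prod (Set.finite_lt_nat 6)).subset ?_
    rintro _ ⟨y, hy, rfl⟩
    exact hy
  let u0 : Y →₀ ℕ := Finsupp.indicator hB.toFinset fun _ _ => 3
  refine (Set.finite_Icc 0 u0).subset fun u hu => ⟨bot_le, fun y => ?_⟩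
  by_cases hy : u y = 0
  · rw [hy]; exact Nat.zero_le _
  have h1 : y.1.1 < 6 := hu.2 _ (by
    have := cnt_ge (c := fun z : Y => z.1.1 = y.1.1) u rfl
    rw [A_apply, out_apply]; omega)
  have h2 : y.1.2 < 6 := hu.2 _ (by
    have := cnt_ge (c := fun z : Y => z.1.2 = y.1.2) u rfl
    rw [A_apply, inn_apply]; omega)
  have : u0 y = 3 := indicator_of_mem (hB.mem_toFinset.mpr ⟨h1, h2⟩) _
  rw [this]
  exact (le_degree y u).trans hu.1

lemma card_le_degree {α : Type} (u : α →₀ ℕ) : u.support.card ≤ degree u := by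
  rw [degree_apply, Finset.card_eq_sum_ones]
  exact Finset.sum_le_sum fun a ha => Nat.one_le_iff_ne_zero.mpr (mem_support_iff.mp ha)

theorem fg : ∃ F : Set (MvPolynomial Y ℂ), F.Finite ∧ F ⊆ RingHom.ker (phi f0) ∧
    Ideal.span {g | ∃ σ : Equiv.Perm ℕ, {i | σ i ≠ i}.Finite ∧
      ∃ p ∈ F, g = rename (act σ σ.injective) p} = RingHom.ker (phi f0) := by
  classical
  let F : Set (MvPolynomial Y ℂ) := (fun p : (Y →₀ ℕ) × (Y →₀ ℕ) =>
    (monomial p.1 1 - monomial p.2 1 : MvPolynomial Y ℂ)) ''
      {p | p ∈ {u | Small u} ×ˢ {u | Small u} ∧ A p.1 = A p.2}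
  have hF : F ⊆ RingHom.ker (phi f0) := by
    rintro _ ⟨p, hp, rfl⟩
    simp only [SetLike.mem_coe, RingHom.mem_ker, map_sub, phi_mon, hp.2, sub_self]
  refine ⟨F, ((small_finite.prod small_finite).subset fun p hp => hp.1).image _, hF,
    le_antisymm ?_ ?_⟩
  · rw [Ideal.span_le]
    rintro _ ⟨σ, -, p, hp, rfl⟩
    have := hF hp
    simp only [SetLike.mem_coe, RingHom.mem_ker] at this ⊢
    rw [phi_rename, this, map_zero]
  · apply ker_le
    intro u v h
    refine conn (fun u v => (monomial u 1 - monomial v 1 : MvPolynomial Y ℂ) ∈ Ideal.span _)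
      (fun u v w h1 h2 => ?_) (fun u v w h1 => ?_) (fun u v h1 h2 => ?_) _ u v rfl h
    · convert Ideal.add_mem _ h1 h2 using 1
      ring
    · have := Ideal.mul_mem_right (monomial w 1) _ h1
      rwa [sub_mul, monomial_mul, monomial_mul, one_mul] at this
    · have hc : (A u).support.card ≤ 6 := by
        have h3 : (A u).support ⊆ (out u).support ∪ (inn u).support := by
          intro k hk
          simp only [Finsupp.mem_support_iff, Finset.mem_union, A_apply] at hk ⊢
          omega
        have h4 := Finset.card_le_card h3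
        have h5 := Finset.card_union_le (out u).support (inn u).support
        have h6 := card_le_degree (out u)
        have h7 := card_le_degree (inn u)
        rw [deg_out] at h6
        rw [deg_inn] at h7
        omega
      obtain ⟨σ, hσ, hS⟩ := exists_perm 6 _ hc
      have hsm : ∀ w, A w = A u → Small (mapDomain (act σ σ.injective) w) := by
        intro w hw
        refine ⟨by rw [degree_mapDomain, deg_eq hw]; exact h1, fun k hk => ?_⟩
        rw [A_act, hw, mapDomain_equiv_apply] at hk
        simpa using hS _ (mem_support_iff.mpr hk)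
      refine Ideal.subset_span ⟨σ.symm, hσ.subset fun i hi => ?_, _,
        ⟨(mapDomain (act σ σ.injective) u, mapDomain (act σ σ.injective) v),
          ⟨⟨hsm u rfl, hsm v h2.symm⟩, by simp only [A_act, h2]⟩, rfl⟩, ?_⟩
      · intro h3
        apply hi
        rw [Equiv.symm_apply_eq, h3]
      · have h3 : act σ.symm σ.symm.injective ∘ act σ σ.injective = id := by
          ext1 y
          simp [act]
        simp only [map_sub, rename_monomial, ← mapDomain_comp, h3, mapDomain_id]

end Pool.Agent.H.MP_72f11f_al
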