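import Pool.Agent.H.MP_72f11f_al.Ord

set_option autoImplicit false
open Finsupp MvPolynomial

namespace Pool.Agent.H.MP_72f11f_al

def gg (t : ℕ) : Y := ⟨(2 * t + 3, 2 * t), by simp⟩
def hh (t : ℕ) : Y := ⟨(2 * t + 1, 2 * t), by simp⟩
def e0 (r : ℕ) : Y := ⟨(1, 2 * r), by simp only [ne_eq]; omega⟩

noncomputable def GG (r : ℕ) : Y →₀ ℕ := single (e0 r) 1 + ∑ t ∈ Finset.range r, single (gg t) 1
noncomputable def HH (r : ℕ) : Y →₀ ℕ := ∑ t ∈ Finset.range (r + 1), single (hh t) 1

lemma GG_supp {r : ℕ} {y : Y} (h : GG r y ≠ 0) : y = e0 r ∨ ∃ t < r, y = gg t := by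
  classical
  by_contra hc
  push Not at hc
  apply h
  rw [GG, Finsupp.add_apply, Finsupp.finsetSum_apply, single_eq_of_ne hc.1, zero_add]
  exact Finset.sum_eq_zero fun t ht => single_eq_of_ne (hc.2 t (Finset.mem_range.mp ht))

lemma HH_supp {r : ℕ} {y : Y} (h : HH r y ≠ 0) : ∃ t, y = hh t := by
  classical
  by_contra hc
  push Not at hc
  apply h
  rw [HH, Finsupp.finsetSum_apply]
  exact Finset.sum_eq_zero fun t _ => single_eq_of_ne (hc t)

lemma out_GG (r : ℕ) : out (GG r) = ∑ t ∈ Finset.range (r + 1), single (2 * t + 1) 1 := by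
  rw [GG, map_add, map_sum, Finset.sum_range_succ', add_comm]
  simp only [out_single, gg, e0]
  rfl

lemma inn_GG (r : ℕ) : inn (GG r) = ∑ t ∈ Finset.range (r + 1), single (2 * t) 1 := by
  rw [GG, map_add, map_sum, Finset.sum_range_succ, add_comm]
  simp only [inn_single, gg, e0]

lemma A_GH (r : ℕ) : A (GG r) = A (HH r) := by
  have h1 : out (HH r) = out (GG r) := by
    rw [out_GG, HH, map_sum]; simp only [out_single, hh]
  have h2 : inn (HH r) = inn (GG r) := by
    rw [inn_GG, HH, map_sum]; simp only [inn_single, hh]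
  simp only [A, AddMonoidHom.add_apply, h1, h2]

lemma sum_le_one (n : ℕ) (f : ℕ → ℕ) (hf : Function.Injective f) (k : ℕ) :
    (∑ t ∈ Finset.range n, single (f t) 1 : ℕ →₀ ℕ) k ≤ 1 := by
  rw [Finsupp.finsetSum_apply]
  simp only [single_apply]
  rw [Finset.sum_boole]
  refine Finset.card_le_one.mpr fun a ha b hb => hf ?_
  rw [(Finset.mem_filter.mp ha).2, (Finset.mem_filter.mp hb).2]

lemma out_GG_le (r k : ℕ) : out (GG r) k ≤ 1 := by
  rw [out_GG]; exact sum_le_one _ (fun t => 2 * t + 1) (fun a b h => by simpa using h) k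

lemma inn_GG_le (r k : ℕ) : inn (GG r) k ≤ 1 := by
  rw [inn_GG]; exact sum_le_one _ (fun t => 2 * t) (fun a b h => by simpa using h) k

lemma gt_S {k : ℕ} {z : Z} (h : Z.S k < z) : ∃ l, k < l ∧ z = Z.S l := by
  rcases z with l | l | l
  · exact ⟨l, (S_lt_S _ _).mp h, rfl⟩
  · exact absurd (T_lt_S l k) (not_lt.mpr h.le)
  · exact absurd (V_lt_S l k) (not_lt.mpr h.le)

lemma H_lt_G (r : ℕ) (hr : 0 < r) : mo.toSyn (HH r) < mo.toSyn (GG r) := by
  have hH : ∀ k, kap (HH r) (.S k) = 0 := fun k => by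
    by_contra hc
    rw [kap_S] at hc
    obtain ⟨y, hy, h1, -⟩ := cnt_pos hc
    obtain ⟨t, rfl⟩ := HH_supp hy
    simp [hh] at h1
  rw [mo_lt]
  refine Finsupp.Colex.lt_iff.mpr ⟨.S 1, fun j hj => ?_, ?_⟩
  · obtain ⟨l, hl, rfl⟩ := gt_S hj
    change kap (HH r) (.S l) = kap (GG r) (.S l)
    rw [hH]
    by_contra hc
    rw [kap_S] at hc
    obtain ⟨y, hy, h1, h2⟩ := cnt_pos (Ne.symm hc)
    rcases GG_supp hy with rfl | ⟨t, -, rfl⟩
    · simp only [e0] at h2; omega
    · simp only [gg] at h1; omega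
  · change kap (HH r) (.S 1) < kap (GG r) (.S 1)
    rw [hH, kap_S]
    have h1 := cnt_ge (c := fun y : Y => y.1.1 < y.1.2 ∧ y.1.1 = 1) (GG r) (a := e0 r)
      ⟨by simp only [e0]; omega, rfl⟩
    have h2 : 1 ≤ GG r (e0 r) := by
      rw [GG, Finsupp.add_apply, single_eq_same]; omega
    omega

theorem standard {r : ℕ} {u v : Y →₀ ℕ} (hu : u ≤ GG r) {a : ℕ} (har : a < r) (ha : u (gg a) = 0)
    (hA : A v = A u) : ¬ mo.toSyn v < mo.toSyn u := by
  intro hlt
  have hs : ∀ y, u y ≠ 0 → y = e0 r ∨ ∃ t < r, y = gg t := fun y hy =>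
    GG_supp (fun h => hy (by have := hu y; omega))
  have ho1 : ∀ k, out u k ≤ 1 := fun k => by
    have := out_GG_le r k
    rw [out_apply] at this ⊢
    exact (cnt_le _ hu).trans this
  have hi1 : ∀ k, inn u k ≤ 1 := fun k => by
    have := inn_GG_le r k
    rw [inn_apply] at this ⊢
    exact (cnt_le _ hu).trans this
  have ho : out v = out u := by
    refine eq_of_le_degree (fun k => ?_) (by rw [deg_out, deg_out, deg_eq hA])
    have := DFunLike.congr_fun hA k
    rw [A_apply, A_apply] at this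
    have := hi1 k
    omega
  have hi : inn v = inn u := by
    simp only [A, AddMonoidHom.add_apply, ho] at hA
    exact add_left_cancel hA
  have vo2 : ∀ y z : Y, v y ≠ 0 → v z ≠ 0 → y.1.1 = z.1.1 → y = z := by
    intro y z hy hz h
    by_contra hne
    have h1 := cnt_ge2 (c := fun x : Y => x.1.1 = z.1.1) v hne h rfl
    have h2 := ho1 z.1.1
    rw [← ho, out_apply] at h2
    omega
  have vi2 : ∀ y z : Y, v y ≠ 0 → v z ≠ 0 → y.1.2 = z.1.2 → y = z := by
    intro y z hy hz h
    by_contra hne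
    have h1 := cnt_ge2 (c := fun x : Y => x.1.2 = z.1.2) v hne h rfl
    have h2 := hi1 z.1.2
    rw [← hi, inn_apply] at h2
    omega
  have uS : ∀ k, kap u (.S k) ≠ 0 → k = 1 ∧ u (e0 r) ≠ 0 := fun k hk => by
    rw [kap_S] at hk
    obtain ⟨y, hy, h1, h2⟩ := cnt_pos hk
    rcases hs y hy with rfl | ⟨t, -, rfl⟩
    · exact ⟨h2.symm, hy⟩
    · simp only [gg] at h1; omega
  have uT : ∀ k, kap u (.T k) ≠ 0 → ∃ t < r, k = 2 * t ∧ u (gg t) ≠ 0 := fun k hk => by
    rw [kap_T] at hk
    obtain ⟨y, hy, h1, h2⟩ := cnt_pos hk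
    rcases hs y hy with rfl | ⟨t, ht, rfl⟩
    · simp only [e0] at h1; omega
    · exact ⟨t, ht, h2.symm, hy⟩
  have vS : ∀ y, v y ≠ 0 → y.1.1 < y.1.2 → kap v (.S y.1.1) ≠ 0 := fun y hy h => by
    rw [kap_S]
    have := cnt_ge (c := fun x : Y => x.1.1 < x.1.2 ∧ x.1.1 = y.1.1) v (a := y) ⟨h, rfl⟩
    omega
  have vT : ∀ y, v y ≠ 0 → y.1.2 < y.1.1 → kap v (.T y.1.2) ≠ 0 := fun y hy h => by
    rw [kap_T]
    have := cnt_ge (c := fun x : Y => x.1.2 < x.1.1 ∧ x.1.2 = y.1.2) v (a := y) ⟨h, rfl⟩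
    omega
  have vin : ∀ y, u y ≠ 0 → ∃ z, v z ≠ 0 ∧ z.1.2 = y.1.2 := fun y hy => by
    have := cnt_ge (c := fun x : Y => x.1.2 = y.1.2) u (a := y) rfl
    rw [← inn_apply, ← hi, inn_apply] at this
    exact cnt_pos (by omega)
  have vout : ∀ y, u y ≠ 0 → ∃ z, v z ≠ 0 ∧ z.1.1 = y.1.1 := fun y hy => by
    have := cnt_ge (c := fun x : Y => x.1.1 = y.1.1) u (a := y) rfl
    rw [← out_apply, ← ho, out_apply] at this
    exact cnt_pos (by omega)
  have uin : ∀ y, v y ≠ 0 → ∃ z, u z ≠ 0 ∧ z.1.2 = y.1.2 := fun y hy => by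
    have := cnt_ge (c := fun x : Y => x.1.2 = y.1.2) v (a := y) rfl
    rw [← inn_apply, hi, inn_apply] at this
    exact cnt_pos (by omega)
  have uout : ∀ y, v y ≠ 0 → ∃ z, u z ≠ 0 ∧ z.1.1 = y.1.1 := fun y hy => by
    have := cnt_ge (c := fun x : Y => x.1.1 = y.1.1) v (a := y) rfl
    rw [← out_apply, ho, out_apply] at this
    exact cnt_pos (by omega)
  have ve0 : (∀ k, kap v (.S k) = kap u (.S k)) → kap v (.T (2 * r)) = kap u (.T (2 * r)) →
      u (e0 r) ≠ 0 → v (e0 r) ≠ 0 := by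
    intro h1 h2 h3
    obtain ⟨z, hz, hz2⟩ := vin _ h3
    simp only [e0] at hz2
    have hup : z.1.1 < z.1.2 := by
      by_contra hc
      have := vT z hz (by have := z.2; omega)
      rw [hz2, h2] at this
      obtain ⟨t, ht, h4, -⟩ := uT _ this
      omega
    have h5 := vS z hz hup
    rw [h1] at h5
    have : z = e0 r := Subtype.ext (Prod.ext (uS _ h5).1 hz2)
    rwa [← this]
  rw [mo_lt] at hlt
  obtain ⟨z, h1, h2⟩ := Finsupp.Colex.lt_iff.mp hlt
  replace h1 : ∀ j, z < j → kap v j = kap u j := h1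
  replace h2 : kap v z < kap u z := h2
  rcases z with k | k | y
  · obtain ⟨rfl, he⟩ := uS k (by omega)
    have h3 : kap u (.S 1) ≤ 1 := by
      rw [kap_S]
      refine le_trans (cnt_mono fun y _ hy => hy.2) ?_
      rw [← out_apply]; exact ho1 1
    have hdown : ∀ y, v y ≠ 0 → y.1.2 < y.1.1 := fun y hy => by
      by_contra hc
      have h4 := vS y hy (by have := y.2; omega)
      obtain ⟨z, hz, hz'⟩ := uout y hy
      have h5 : 1 ≤ y.1.1 := by
        rcases hs z hz with rfl | ⟨t, -, rfl⟩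
        · simp only [e0] at hz'; omega
        · simp only [gg] at hz'; omega
      rcases h5.lt_or_eq with h5 | h5
      · rw [h1 _ ((S_lt_S _ _).mpr h5)] at h4
        have := (uS _ h4).1
        omega
      · rw [← h5] at h4; omega
    have c1 : cnt (fun y : Y => y.1.1 ≤ 2 * a + 1) v ≤ cnt (fun y : Y => y.1.2 ≤ 2 * a) v :=
      cnt_mono fun y hy h => by have := hdown y hy; omega
    have c2 : cnt (fun y : Y => y.1.1 ≤ 2 * a + 1) v = cnt (fun y : Y => y.1.1 ≤ 2 * a + 1) u := by
      have e1 := cnt_mapDomain (fun y : Y => y.1.1) (fun k => k ≤ 2 * a + 1) v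
      have e2 := cnt_mapDomain (fun y : Y => y.1.1) (fun k => k ≤ 2 * a + 1) u
      rw [← e1, ← e2]
      exact congrArg _ ho
    have c3 : cnt (fun y : Y => y.1.2 ≤ 2 * a) v = cnt (fun y : Y => y.1.2 ≤ 2 * a) u := by
      have e1 := cnt_mapDomain (fun y : Y => y.1.2) (fun k => k ≤ 2 * a) v
      have e2 := cnt_mapDomain (fun y : Y => y.1.2) (fun k => k ≤ 2 * a) u
      rw [← e1, ← e2]
      exact congrArg _ hi
    have c4 : cnt (fun y : Y => y.1.2 ≤ 2 * a ∨ y = e0 r) u ≤
        cnt (fun y : Y => y.1.1 ≤ 2 * a + 1) u := by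
      refine cnt_mono fun y hy h => ?_
      rcases hs y hy with rfl | ⟨t, ht, rfl⟩
      · simp [e0]
      · rcases h with h | h
        · have : t ≠ a := by rintro rfl; exact hy ha
          simp only [gg] at h ⊢; omega
        · simp [gg, e0] at h
    rw [cnt_or (by rintro y h rfl; simp only [e0] at h; omega), cnt_eq] at c4
    omega
  · obtain ⟨t, ht, rfl, hgt⟩ := uT k (by omega)
    have hSS : ∀ k, kap v (.S k) = kap u (.S k) := fun k => h1 _ (T_lt_S _ _)
    have h3 : kap u (.T (2 * t)) ≤ 1 := by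
      rw [kap_T]
      refine le_trans (cnt_mono fun y _ hy => hy.2) ?_
      rw [← inn_apply]; exact hi1 _
    obtain ⟨z, hz, hz2⟩ := vin _ hgt
    simp only [gg] at hz2
    have hup : z.1.1 < z.1.2 := by
      by_contra hc
      have := vT z hz (by have := z.2; omega)
      rw [hz2] at this
      omega
    have h5 := vS z hz hup
    rw [hSS] at h5
    have h6 := ve0 hSS (h1 _ ((T_lt_T _ _).mpr (by omega))) (uS _ h5).2
    have h7 := vo2 z _ hz h6 (uS _ h5).1
    rw [h7] at hz2
    simp only [e0] at hz2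
    omega
  · have hSS : ∀ k, kap v (.S k) = kap u (.S k) := fun k => h1 _ (V_lt_S _ _)
    have hTT : ∀ k, kap v (.T k) = kap u (.T k) := fun k => h1 _ (V_lt_T _ _)
    have hVV : ∀ z, Z.V y < Z.V z → v z = u z := fun z hz => by
      rw [← kap_V, ← kap_V]; exact h1 _ hz
    rw [kap_V, kap_V] at h2
    have hy : u y ≠ 0 := by omega
    have hy1 : u y ≤ 1 := by
      have := cnt_ge (c := fun x : Y => x.1.1 = y.1.1) u (a := y) rfl
      rw [← out_apply] at this
      exact this.trans (ho1 _)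
    have hvy : v y = 0 := by omega
    rcases hs y hy with rfl | ⟨t, ht, rfl⟩
    · exact ve0 hSS (hTT _) hy hvy
    · obtain ⟨z, hz, hz1⟩ := vout _ hy
      simp only [gg] at hz1
      have hdown : z.1.2 < z.1.1 := by
        by_contra hc
        have h5 := vS z hz (by have := z.2; omega)
        rw [hSS] at h5
        have := (uS _ h5).1
        omega
      have h5 := vT z hz hdown
      rw [hTT] at h5
      obtain ⟨s, hs', h6, h7⟩ := uT _ h5
      have hst : s ≠ t := by
        rintro rfl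
        have : z = gg s := Subtype.ext (Prod.ext hz1 h6)
        rw [this] at hz
        exact hz hvy
      rcases lt_or_gt_of_ne hst with h8 | h8
      · have h9 := hVV z (by
          rw [V_lt_V]
          simp only [gg]
          right
          refine ⟨hz1.symm, ?_⟩
          rw [if_pos (by omega), if_pos hdown]
          omega)
        rcases hs z (by rwa [← h9]) with rfl | ⟨t', -, rfl⟩
        · simp only [e0] at hz1; omega
        · simp only [gg] at hz1 h6; omega
      · have h9 := hVV (gg s) (by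
          rw [V_lt_V]
          simp only [gg]
          left; omega)
        have := vi2 z (gg s) hz (by rwa [h9]) h6
        rw [this] at hz1
        simp only [gg] at hz1
        omega

lemma exists_other {g : MvPolynomial Y ℂ} (hg : phi f0 g = 0) {u : Y →₀ ℕ} (hu : u ∈ g.support) :
    ∃ v ∈ g.support, v ≠ u ∧ A v = A u := by
  classical
  by_contra hc
  push Not at hc
  have h1 : coeff (A u) (phi f0 g) = coeff u g := by
    conv_lhs => rw [g.as_sum, map_sum, coeff_sum]
    simp only [phi_mon, coeff_monomial]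
    rw [Finset.sum_eq_single u]
    · simp
    · intro v hv hvu
      rw [if_neg (hc v hv hvu)]
    · intro h; exact absurd hu h
  rw [hg, coeff_zero] at h1
  exact (MvPolynomial.mem_support_iff.mp hu) h1.symm

theorem no_egb : ¬ ∃ G : Set (MvPolynomial Y ℂ), G.Finite ∧ G ⊆ RingHom.ker (phi f0) ∧
    Ideal.span {q : MvPolynomial Y ℂ | ∃ (ρ : ℕ → ℕ) (h : StrictMono ρ), ∃ g ∈ G, g ≠ 0 ∧
        q = monomial (mo.degree (rename (act ρ h.injective) g)) 1} =
      Ideal.span {q : MvPolynomial Y ℂ | ∃ g ∈ RingHom.ker (phi f0), g ≠ 0 ∧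
        q = monomial (mo.degree g) 1} := by
  classical
  rintro ⟨G, hG, hGI, hspan⟩
  obtain ⟨D, hD⟩ := (hG.image totalDegree).bddAbove
  have hlt := H_lt_G (D + 1) (by omega)
  have hne : HH (D + 1) ≠ GG (D + 1) := fun h => by rw [h] at hlt; exact lt_irrefl _ hlt
  let b : MvPolynomial Y ℂ := monomial (GG (D + 1)) 1 - monomial (HH (D + 1)) 1
  have hbc : coeff (GG (D + 1)) b = 1 := by
    simp [b, coeff_monomial, hne]
  have hb0 : b ≠ 0 := fun h => by rw [h] at hbc; simp at hbc
  have hbd : mo.degree b = GG (D + 1) := by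
    apply mo.toSyn.injective
    apply le_antisymm
    · rw [mo.degree_le_iff]
      intro c hc
      rw [MvPolynomial.mem_support_iff] at hc
      simp only [b, coeff_sub, coeff_monomial] at hc
      by_cases h1 : GG (D + 1) = c
      · rw [h1]
      · by_cases h2 : HH (D + 1) = c
        · rw [← h2]; exact hlt.le
        · simp [h1, h2] at hc
    · exact mo.le_degree (MvPolynomial.mem_support_iff.mpr (by rw [hbc]; exact one_ne_zero))
  have hmem : (monomial (GG (D + 1)) 1 : MvPolynomial Y ℂ) ∈ Ideal.span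
      {q : MvPolynomial Y ℂ | ∃ g ∈ RingHom.ker (phi f0), g ≠ 0 ∧ q = monomial (mo.degree g) 1} :=
    Ideal.subset_span ⟨b, by simp [b, RingHom.mem_ker, phi_mon, A_GH], hb0, by rw [hbd]⟩
  rw [← hspan] at hmem
  have hset : {q : MvPolynomial Y ℂ | ∃ (ρ : ℕ → ℕ) (h : StrictMono ρ), ∃ g ∈ G, g ≠ 0 ∧
        q = monomial (mo.degree (rename (act ρ h.injective) g)) 1} =
      (fun s => monomial s (1 : ℂ)) '' {s | ∃ (ρ : ℕ → ℕ) (h : StrictMono ρ), ∃ g ∈ G, g ≠ 0 ∧
        s = mo.degree (rename (act ρ h.injective) g)} := by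
    ext q
    constructor
    · rintro ⟨ρ, h, g, hg, hg0, rfl⟩
      exact ⟨_, ⟨ρ, h, g, hg, hg0, rfl⟩, rfl⟩
    · rintro ⟨_, ⟨ρ, h, g, hg, hg0, rfl⟩, rfl⟩
      exact ⟨ρ, h, g, hg, hg0, rfl⟩
  rw [hset, mem_ideal_span_monomial_image] at hmem
  obtain ⟨_, ⟨ρ, h, g, hg, hg0, rfl⟩, hle⟩ := hmem (GG (D + 1)) (by simp)
  set g' := rename (act ρ h.injective) g with hg'
  have hg'0 : g' ≠ 0 := fun h0 => hg0 (rename_injective _ (act_inj ρ h.injective)
    (by rw [map_zero]; exact h0))
  have hker : phi f0 g' = 0 := by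
    have := hGI hg
    simp only [SetLike.mem_coe, RingHom.mem_ker] at this
    rw [hg', phi_rename, this, map_zero]
  have hsupp := mo.degree_mem_support hg'0
  have hdeg : degree (mo.degree g') ≤ D :=
    (le_totalDegree hsupp).trans ((totalDegree_rename_le _ _).trans (hD ⟨g, hg, rfl⟩))
  obtain ⟨a, har, ha⟩ : ∃ a < D + 1, mo.degree g' (gg a) = 0 := by
    by_contra hc
    push Not at hc
    have := Finset.card_le_card_of_injOn (s := Finset.range (D + 1)) (t := (mo.degree g').support)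
      gg (fun a ha => Finsupp.mem_support_iff.mpr (hc a (by simpa using ha)))
      (fun a _ b _ hab => by simp only [gg, Subtype.mk.injEq, Prod.mk.injEq] at hab; omega)
    have h2 := card_le_degree (mo.degree g')
    rw [Finset.card_range] at this
    omega
  obtain ⟨v, hv, hvu, hA⟩ := exists_other hker hsupp
  exact standard hle har ha hA
    (lt_of_le_of_ne (mo.le_degree hv) fun h => hvu (mo.toSyn.injective h))

end Pool.Agent.H.MP_72f11f_al
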