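import Pool.Agent.H.MP_72f11f_al.FG

set_option autoImplicit false
open Finsupp MvPolynomial

namespace Pool.Agent.H.MP_72f11f_al

inductive Z
  | S (k : ℕ) : Z
  | T (k : ℕ) : Z
  | V (y : Y) : Z

def code : Z → ℕ ×ₗ ℕ ×ₗ ℕ
  | .S k => toLex (2, toLex (k, 0))
  | .T k => toLex (1, toLex (k, 0))
  | .V y => toLex (0, toLex (y.1.1, if y.1.2 < y.1.1 then y.1.1 - y.1.2 else y.1.2))

lemma code_inj : Function.Injective code := by
  rintro (a | a | ⟨⟨a, b⟩, h⟩) (c | c | ⟨⟨c, d⟩, h'⟩) he <;>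
    simp only [code, toLex_inj, Prod.mk.injEq] at he
  all_goals first | (exfalso; omega) | skip
  · rw [he.2.1]
  · rw [he.2.1]
  · obtain ⟨-, rfl, h3⟩ := he
    have : b = d := by
      simp only at h h'
      split_ifs at h3 <;> omega
    subst this; rfl

noncomputable instance : LinearOrder Z := LinearOrder.lift' code code_inj

lemma Z.lt_def (a b : Z) : a < b ↔ code a < code b := Iff.rfl

instance : WellFoundedLT Z := ⟨InvImage.wf code wellFounded_lt⟩

lemma S_lt_S (a b : ℕ) : Z.S a < Z.S b ↔ a < b := by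
  simp [Z.lt_def, code, Prod.Lex.toLex_lt_toLex]
lemma T_lt_T (a b : ℕ) : Z.T a < Z.T b ↔ a < b := by
  simp [Z.lt_def, code, Prod.Lex.toLex_lt_toLex]
lemma T_lt_S (a b : ℕ) : Z.T a < Z.S b := by
  simp [Z.lt_def, code, Prod.Lex.toLex_lt_toLex]
lemma V_lt_S (a : Y) (b : ℕ) : Z.V a < Z.S b := by
  simp [Z.lt_def, code, Prod.Lex.toLex_lt_toLex]
lemma V_lt_T (a : Y) (b : ℕ) : Z.V a < Z.T b := by
  simp [Z.lt_def, code, Prod.Lex.toLex_lt_toLex]
lemma V_lt_V (a b : Y) : Z.V a < Z.V b ↔ a.1.1 < b.1.1 ∨ a.1.1 = b.1.1 ∧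
    (if a.1.2 < a.1.1 then a.1.1 - a.1.2 else a.1.2) <
      (if b.1.2 < b.1.1 then b.1.1 - b.1.2 else b.1.2) := by
  simp [Z.lt_def, code, Prod.Lex.toLex_lt_toLex]

def tag (y : Y) : Z := if y.1.1 < y.1.2 then .S y.1.1 else .T y.1.2

noncomputable def kap : (Y →₀ ℕ) →+ (Z →₀ ℕ) :=
  mapDomain.addMonoidHom tag + mapDomain.addMonoidHom Z.V

lemma kap_def (u : Y →₀ ℕ) : kap u = mapDomain tag u + mapDomain Z.V u := rfl

lemma kap_V (u : Y →₀ ℕ) (y : Y) : kap u (.V y) = u y := by
  rw [kap_def, Finsupp.add_apply, mapDomain_apply (fun _ _ h => Z.V.inj h),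
    mapDomain_of_notMem_range, zero_add]
  rintro ⟨z, hz⟩
  unfold tag at hz
  split_ifs at hz

lemma kap_S (u : Y →₀ ℕ) (k : ℕ) :
    kap u (.S k) = cnt (fun y => y.1.1 < y.1.2 ∧ y.1.1 = k) u := by
  rw [kap_def, Finsupp.add_apply, mapDomain_of_notMem_range (f := Z.V) _ _ (by simp), add_zero,
    md_apply]
  congr 2
  ext y
  unfold tag
  split_ifs with h <;> simp [h]

lemma kap_T (u : Y →₀ ℕ) (k : ℕ) :
    kap u (.T k) = cnt (fun y => y.1.2 < y.1.1 ∧ y.1.2 = k) u := by
  rw [kap_def, Finsupp.add_apply, mapDomain_of_notMem_range (f := Z.V) _ _ (by simp), add_zero,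
    md_apply]
  congr 2
  ext y
  have := y.2
  unfold tag
  split_ifs with h
  · simp; omega
  · simp; omega

lemma kap_inj : Function.Injective kap := fun u v h => by
  ext y
  rw [← kap_V, ← kap_V, h]

def actZ (ρ : ℕ → ℕ) (h : Function.Injective ρ) : Z → Z
  | .S k => .S (ρ k)
  | .T k => .T (ρ k)
  | .V y => .V (act ρ h y)

lemma actZ_mono (ρ : ℕ → ℕ) (h : StrictMono ρ) : StrictMono (actZ ρ h.injective) := by
  rintro (a | a | a) (c | c | c) he
  · simp only [actZ, S_lt_S] at he ⊢; exact h he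
  · exact absurd (T_lt_S c a) (not_lt.mpr he.le)
  · exact absurd (V_lt_S c a) (not_lt.mpr he.le)
  · exact T_lt_S _ _
  · simp only [actZ, T_lt_T] at he ⊢; exact h he
  · exact absurd (V_lt_T c a) (not_lt.mpr he.le)
  · exact V_lt_S _ _
  · exact V_lt_T _ _
  · obtain ⟨⟨a, b⟩, h1⟩ := a
    obtain ⟨⟨c, d⟩, h2⟩ := c
    simp only [actZ, V_lt_V, act, h.lt_iff_lt] at he h1 h2 ⊢
    rcases he with he | ⟨rfl, he⟩
    · exact Or.inl he
    · refine Or.inr ⟨rfl, ?_⟩
      split_ifs at he ⊢ with h3 h4 h4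
      · have := h (show d < b by omega)
        have := h h3
        omega
      · have := h (show a < d by omega)
        omega
      · omega
      · exact h he

lemma kap_act (ρ : ℕ → ℕ) (h : StrictMono ρ) (u : Y →₀ ℕ) :
    kap (mapDomain (act ρ h.injective) u) = mapDomain (actZ ρ h.injective) (kap u) := by
  rw [kap_def, kap_def, mapDomain_add, ← mapDomain_comp, ← mapDomain_comp, ← mapDomain_comp,
    ← mapDomain_comp]
  congr 2
  ext1 y
  simp only [Function.comp, tag, act, h.lt_iff_lt]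
  split_ifs <;> rfl

lemma colex_map {f : Z → Z} (hf : StrictMono f) {a b : Z →₀ ℕ} (h : toColex a < toColex b) :
    toColex (mapDomain f a) < toColex (mapDomain f b) := by
  obtain ⟨i, h1, h2⟩ := Finsupp.Colex.lt_iff.mp h
  refine Finsupp.Colex.lt_iff.mpr ⟨f i, fun j hj => ?_, ?_⟩
  · change mapDomain f a j = mapDomain f b j
    by_cases hr : j ∈ Set.range f
    · obtain ⟨j, rfl⟩ := hr
      rw [mapDomain_apply hf.injective, mapDomain_apply hf.injective]
      exact h1 j (hf.lt_iff_lt.mp hj)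
    · rw [mapDomain_of_notMem_range _ _ hr, mapDomain_of_notMem_range _ _ hr]
  · change mapDomain f a (f i) < mapDomain f b (f i)
    rw [mapDomain_apply hf.injective, mapDomain_apply hf.injective]
    exact h2

def Syn : Type := Y →₀ ℕ

noncomputable instance : AddCommMonoid Syn := inferInstanceAs (AddCommMonoid (Y →₀ ℕ))

noncomputable def key (u : Syn) : Colex (Z →₀ ℕ) := toColex (kap u)

lemma key_inj : Function.Injective key := fun _ _ h => kap_inj (toColex.injective h)

lemma key_add (u v : Syn) : key (u + v) = key u + key v := by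
  unfold key
  exact congrArg toColex (map_add kap (u : Y →₀ ℕ) (v : Y →₀ ℕ))

noncomputable instance : LinearOrder Syn := LinearOrder.lift' key key_inj

lemma Syn.le_def (a b : Syn) : a ≤ b ↔ key a ≤ key b := Iff.rfl
lemma Syn.lt_def (a b : Syn) : a < b ↔ key a < key b := Iff.rfl

instance : IsOrderedAddMonoid Syn where
  add_le_add_left a b h c := by
    rw [Syn.le_def, key_add, key_add]
    rw [Syn.le_def] at h
    gcongr

instance : WellFoundedLT Syn := ⟨InvImage.wf key wellFounded_lt⟩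

noncomputable def mo : MonomialOrder Y where
  syn := Syn
  toSyn := AddEquiv.refl _
  toSyn_monotone := by
    intro a b h
    obtain ⟨c, rfl⟩ := exists_add_of_le h
    change toColex (kap a) ≤ toColex (kap (a + c))
    rw [map_add]
    exact toColex_monotone le_self_add

lemma mo_le (a b : Y →₀ ℕ) : mo.toSyn a ≤ mo.toSyn b ↔ toColex (kap a) ≤ toColex (kap b) := Iff.rfl
lemma mo_lt (a b : Y →₀ ℕ) : mo.toSyn a < mo.toSyn b ↔ toColex (kap a) < toColex (kap b) := Iff.rfl

theorem mo_inc (ρ : ℕ → ℕ) (h : StrictMono ρ) (a b : Y →₀ ℕ) (hab : mo.toSyn a ≤ mo.toSyn b) :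
    mo.toSyn (mapDomain (act ρ h.injective) a) ≤ mo.toSyn (mapDomain (act ρ h.injective) b) := by
  rw [mo_le] at hab ⊢
  rw [kap_act ρ h, kap_act ρ h]
  rcases hab.lt_or_eq with h1 | h1
  · exact (colex_map (actZ_mono ρ h) h1).le
  · rw [toColex.injective h1]

end Pool.Agent.H.MP_72f11f_al
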